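import Pool.Agent.H34.GA.Targets1
import Pool.Agent.H46.GZ.MSS

/-!
# Row DCA of the board ga: the convolutions of a cusp form are small where a gap is large
(helper52, after helper94's row DC1)
-/

set_option autoImplicit false

namespace Pool.Agent.H52.GA

open MeasureTheory Pool.Agent.H34.GM Pool.Agent.H34.GZ Pool.Agent.H34.GU Pool.Agent.H34.GA
  Pool.Agent.H46.GZ
open scoped ENNReal

lemma sgl_det {m : ℕ} {b n : Mat m} {a : Fin m → ℝ} {k : Mat m} (h : Sgl b n a k) :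
    b.det ≠ 0 := by
  have hn : n.det = 1 := by
    rw [Matrix.det_of_isLowerTriangular n (fun i j hij => h.up i j hij)]
    exact Finset.prod_eq_one fun i _ => h.one i
  have hk : k.det ≠ 0 := by
    intro h0
    have h1 := congrArg Matrix.det h.orth
    rw [Matrix.det_mul, h0, zero_mul, Matrix.det_one] at h1
    exact zero_ne_one h1
  rw [h.eq, Matrix.det_mul, Matrix.det_mul, hn, one_mul, Matrix.det_diagonal]
  exact mul_ne_zero (Finset.prod_ne_zero_iff.2 fun i _ => (h.pos i).ne') hk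

theorem pf_DCA (hHAR : T_HAR) (hMSR : T_MSR) (hBIA : T_BIA) (hOSA : T_OSA) (hRRA : T_RRA) :
    T_DCA := by
  intro m N _ T D hS F lam hF χ δ hχ hδ hδ2
  have hm1 := hS.one_le
  obtain ⟨C, A, hC, hO⟩ := hOSA m χ hm1 hχ
  have hC0 : 0 < C := by linarith
  obtain ⟨B0, hB0⟩ := hF.bdd
  set B : ℝ := max B0 0 with hBd
  have hB : ∀ g x, g.det ≠ 0 → ‖F g x‖ ≤ B := fun g x hg => (hB0 g x hg).trans (le_max_left _ _)
  have hBn : 0 ≤ B := le_max_right _ _
  obtain ⟨Cb, _, hb⟩ := hBIA m χ hm1 hχ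
  have hTg : Tg m (bi m χ δ) := (hb δ hδ hδ2).1.toTg
  obtain ⟨B1, hB1⟩ := (hRRA m N T D hS F lam hF.toHecA (bi m χ δ) hTg).bdd
  set B' : ℝ := max B1 0 with hB'd
  have hB' : ∀ g x, g.det ≠ 0 → ‖Rr (bi m χ δ) 1 F g x‖ ≤ B' := fun g x hg =>
    (hB1 g x hg).trans (le_max_left _ _)
  have hB'n : 0 ≤ B' := le_max_right _ _
  have hZ : hm m (Zc m C) < ⊤ := (hHAR m hm1).2.2.2 C hC0
  set Z : ℝ := (hm m (Zc m C)).toReal with hZd
  have hZ0 : 0 ≤ Z := ENNReal.toReal_nonneg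
  have hZe : hm m (Zc m C) = ENNReal.ofReal Z := (ENNReal.ofReal_toReal hZ.ne).symm
  set κ : ℝ := C * δ⁻¹ ^ A with hκd
  have hκ : 0 ≤ κ := by positivity
  have hN0 : (0 : ℝ) < N := by
    have := hS.two_le
    have h2 : 0 < N := by omega
    exact_mod_cast h2
  have hzc := zc_meas hMSR m C
  refine ⟨B' * N + κ * N * B * Z, ?_⟩
  intro b n a k hSg i j hij x
  have hai := hSg.pos i
  have haj := hSg.pos j
  have hdb : b.det ≠ 0 := sgl_det hSg
  have hq0 : 0 ≤ a i / a j := (div_pos hai haj).le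
  show ‖Rr (bi m χ δ) 1 F b x‖ ≤ (B' * N + κ * N * B * Z) * (a i / a j)
  by_cases hNa : (N : ℝ) * a i ≤ a j
  · have h2 := hO N T F lam hS.two_le hF δ hδ hδ2 b n a k hSg i j hij hNa x
    have h3 : ∫⁻ v in Zc m C, ENNReal.ofReal ‖F (b * (mt v)⁻¹) x‖ ∂(hm m) ≤
        ENNReal.ofReal (B * Z) := by
      calc ∫⁻ v in Zc m C, ENNReal.ofReal ‖F (b * (mt v)⁻¹) x‖ ∂(hm m)
          ≤ ∫⁻ _ in Zc m C, ENNReal.ofReal B ∂(hm m) := by
            refine setLIntegral_mono' hzc fun v hv => ENNReal.ofReal_le_ofReal (hB _ _ ?_)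
            rw [Matrix.det_mul]
            refine mul_ne_zero hdb ?_
            rw [Matrix.det_nonsing_inv, Ring.inverse_eq_inv']
            exact inv_ne_zero (zc_det hC0 hv)
        _ = ENNReal.ofReal B * hm m (Zc m C) := by rw [setLIntegral_const]
        _ = ENNReal.ofReal (B * Z) := by rw [hZe, ENNReal.ofReal_mul hBn]
    have hNq : 0 ≤ κ * (N * a i / a j) := by positivity
    have h4 : ENNReal.ofReal ‖Rr (bi m χ δ) 1 F b x‖ ≤
        ENNReal.ofReal (κ * (N * a i / a j) * (B * Z)) := by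
      calc ENNReal.ofReal ‖Rr (bi m χ δ) 1 F b x‖ ≤ ENNReal.ofReal (κ * (N * a i / a j)) *
            ENNReal.ofReal (B * Z) := h2.trans (mul_le_mul' le_rfl h3)
        _ = ENNReal.ofReal (κ * (N * a i / a j) * (B * Z)) := by
            rw [← ENNReal.ofReal_mul hNq]
    have h5 : ‖Rr (bi m χ δ) 1 F b x‖ ≤ κ * (N * a i / a j) * (B * Z) :=
      (ENNReal.ofReal_le_ofReal_iff (by positivity)).1 h4
    have h6 : κ * (N * a i / a j) * (B * Z) = κ * N * B * Z * (a i / a j) := by ring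
    have h7 : 0 ≤ B' * N * (a i / a j) := by positivity
    calc ‖Rr (bi m χ δ) 1 F b x‖ ≤ κ * N * B * Z * (a i / a j) := by rw [← h6]; exact h5
      _ ≤ (B' * N + κ * N * B * Z) * (a i / a j) := by rw [add_mul]; linarith
  · have h8 : a j < N * a i := not_le.1 hNa
    have h9 : 1 ≤ N * (a i / a j) := by
      rw [← mul_div_assoc, le_div_iff₀ haj, one_mul]
      exact h8.le
    have h10 : 0 ≤ κ * N * B * Z * (a i / a j) := by positivity
    calc ‖Rr (bi m χ δ) 1 F b x‖ ≤ B' := hB' b x hdb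
      _ = B' * 1 := (mul_one B').symm
      _ ≤ B' * (N * (a i / a j)) := mul_le_mul_of_nonneg_left h9 hB'n
      _ = B' * N * (a i / a j) := by ring
      _ ≤ (B' * N + κ * N * B * Z) * (a i / a j) := by rw [add_mul]; linarith

end Pool.Agent.H52.GA
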