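import Pool.Agent.H52.GA.MS1

/-!
Row MSA of the board gaa: the mass of the twofold convolution of a cusp form in `DY` (helper52).
-/

set_option autoImplicit false

namespace Pool.Agent.H52.GA

open MeasureTheory Pool.Agent.H34.GM Pool.Agent.H34.GZ Pool.Agent.H34.GU Pool.Agent.H34.GA
open Pool.Agent.H46.GU (fz wd fz_eq fn_meas wd_meas dom_det)
open scoped ENNReal

/-- the square of a sum of three terms -/
theorem ms_sq3 {a b f : ℂ} {t : ℝ} :
    t ^ 4 * ‖f‖ ^ 2 ≤ 3 * ‖a‖ ^ 2 + 3 * t ^ 2 * ‖b - t * f‖ ^ 2 + 3 * ‖a - t * b‖ ^ 2 := by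
  have h0 : ((t ^ 2 : ℝ) : ℂ) * f = a - (a - t * b) - t * (b - t * f) := by
    push_cast
    ring
  have h1 : t ^ 2 * ‖f‖ ≤ ‖a‖ + ‖a - t * b‖ + |t| * ‖b - t * f‖ := by
    calc t ^ 2 * ‖f‖ = ‖((t ^ 2 : ℝ) : ℂ) * f‖ := by
          rw [norm_mul, Complex.norm_real, Real.norm_of_nonneg (by positivity)]
      _ = ‖a - (a - t * b) - t * (b - t * f)‖ := by rw [h0]
      _ ≤ ‖a - (a - t * b)‖ + ‖(t : ℂ) * (b - t * f)‖ := norm_sub_le _ _
      _ ≤ (‖a‖ + ‖a - t * b‖) + |t| * ‖b - t * f‖ := by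
          refine add_le_add (norm_sub_le _ _) ?_
          rw [norm_mul, Complex.norm_real, Real.norm_eq_abs]
  have h2 : 0 ≤ t ^ 2 * ‖f‖ := by positivity
  have h3 := pow_le_pow_left₀ h2 h1 2
  have h4 : (|t| * ‖b - t * f‖) ^ 2 = t ^ 2 * ‖b - t * f‖ ^ 2 := by
    rw [mul_pow, sq_abs]
  nlinarith [sq_nonneg (‖a‖ - ‖a - t * b‖), sq_nonneg (‖a‖ - |t| * ‖b - t * f‖),
    sq_nonneg (‖a - t * b‖ - |t| * ‖b - t * f‖)]

/-- the square of a sum of two terms -/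
theorem ms_sq2 {a b : ℂ} {t : ℝ} :
    ‖a‖ ^ 2 ≤ 2 * ‖a - t * b‖ ^ 2 + 2 * t ^ 2 * ‖b‖ ^ 2 := by
  have h1 : ‖a‖ ≤ ‖a - t * b‖ + |t| * ‖b‖ := by
    calc ‖a‖ = ‖(a - t * b) + t * b‖ := by rw [sub_add_cancel]
      _ ≤ ‖a - t * b‖ + ‖(t : ℂ) * b‖ := norm_add_le _ _
      _ = ‖a - t * b‖ + |t| * ‖b‖ := by
          rw [norm_mul, Complex.norm_real, Real.norm_eq_abs]
  have h3 := pow_le_pow_left₀ (norm_nonneg a) h1 2
  have h4 : (|t| * ‖b‖) ^ 2 = t ^ 2 * ‖b‖ ^ 2 := by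
    rw [mul_pow, sq_abs]
  nlinarith [sq_nonneg (‖a - t * b‖ - |t| * ‖b‖)]

theorem ms_wd {m N : ℕ} [NeZero N] (F : Mat m → VN m N → ℂ) {z : V m} (hz : (mt z).det ≠ 0) :
    wd F z = ∑ x : VN m N, ENNReal.ofReal (‖F (mt z) x‖ ^ 2) := by
  unfold wd
  refine Finset.sum_congr rfl fun x _ => ?_
  rw [fz_eq F x hz, ENNReal.ofReal_pow (norm_nonneg _)]

/-- the density, three terms -/
theorem ms_w3 {m N : ℕ} [NeZero N] (A B F : Mat m → VN m N → ℂ) (t : ℝ) {z : V m}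
    (hz : (mt z).det ≠ 0) :
    ENNReal.ofReal (t ^ 4) * wd F z ≤ ENNReal.ofReal 3 * wd A z +
      ENNReal.ofReal (3 * t ^ 2) * wd (fun g x => B g x - (t : ℂ) * F g x) z +
      ENNReal.ofReal 3 * wd (fun g x => A g x - (t : ℂ) * B g x) z := by
  rw [ms_wd _ hz, ms_wd _ hz, ms_wd _ hz, ms_wd _ hz, Finset.mul_sum, Finset.mul_sum,
    Finset.mul_sum, Finset.mul_sum, ← Finset.sum_add_distrib, ← Finset.sum_add_distrib]
  refine Finset.sum_le_sum fun x _ => ?_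
  rw [← ENNReal.ofReal_mul (by positivity), ← ENNReal.ofReal_mul (by positivity),
    ← ENNReal.ofReal_mul (by positivity), ← ENNReal.ofReal_mul (by positivity),
    ← ENNReal.ofReal_add (by positivity) (by positivity),
    ← ENNReal.ofReal_add (by positivity) (by positivity)]
  exact ENNReal.ofReal_le_ofReal ms_sq3

/-- the density, two terms -/
theorem ms_w2 {m N : ℕ} [NeZero N] (A B : Mat m → VN m N → ℂ) (t : ℝ) {z : V m}
    (hz : (mt z).det ≠ 0) :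
    wd A z ≤ ENNReal.ofReal 2 * wd (fun g x => A g x - (t : ℂ) * B g x) z +
      ENNReal.ofReal (2 * t ^ 2) * wd B z := by
  rw [ms_wd _ hz, ms_wd _ hz, ms_wd _ hz, Finset.mul_sum, Finset.mul_sum,
    ← Finset.sum_add_distrib]
  refine Finset.sum_le_sum fun x _ => ?_
  rw [← ENNReal.ofReal_mul (by positivity), ← ENNReal.ofReal_mul (by positivity),
    ← ENNReal.ofReal_add (by positivity) (by positivity)]
  exact ENNReal.ofReal_le_ofReal ms_sq2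

/-- the last step: the mass in `DY` from the five bounds -/
theorem ms_fin {t : ℝ} (ht : 0 < t) {XY Xc M1 M2 Mb : ℝ≥0∞}
    (h1 : ENNReal.ofReal (t ^ 4) ≤ ENNReal.ofReal 3 * (XY + Xc) +
      ENNReal.ofReal (3 * t ^ 2) * M2 + ENNReal.ofReal 3 * M1)
    (h2 : Xc ≤ ENNReal.ofReal 2 * M1 + ENNReal.ofReal (2 * t ^ 2) * Mb)
    (hM2 : M2 ≤ ENNReal.ofReal ((t / 10) ^ 2)) (hM1 : M1 ≤ ENNReal.ofReal t ^ 2 * M2)
    (hMb : Mb ≤ ENNReal.ofReal ((t / 10) ^ 2)) : ENNReal.ofReal (t ^ 4 / 4) ≤ XY := by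
  have hM1' : M1 ≤ ENNReal.ofReal (t ^ 4 / 100) := by
    refine (hM1.trans (mul_le_mul' le_rfl hM2)).trans (le_of_eq ?_)
    rw [← ENNReal.ofReal_pow ht.le, ← ENNReal.ofReal_mul (by positivity)]
    congr 1
    ring
  by_contra hcon
  rw [not_le] at hcon
  have h3 : Xc ≤ ENNReal.ofReal (t ^ 4 * (4 / 100)) := by
    refine h2.trans ((add_le_add (mul_le_mul' le_rfl hM1') (mul_le_mul' le_rfl hMb)).trans
      (le_of_eq ?_))
    rw [← ENNReal.ofReal_mul (by positivity), ← ENNReal.ofReal_mul (by positivity),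
      ← ENNReal.ofReal_add (by positivity) (by positivity)]
    congr 1
    ring
  have h4 : ENNReal.ofReal (t ^ 4) ≤ ENNReal.ofReal (t ^ 4 * (93 / 100)) := by
    refine h1.trans ((add_le_add (add_le_add (mul_le_mul' le_rfl (add_le_add hcon.le h3))
      (mul_le_mul' le_rfl hM2)) (mul_le_mul' le_rfl hM1')).trans (le_of_eq ?_))
    rw [← ENNReal.ofReal_add (by positivity) (by positivity),
      ← ENNReal.ofReal_mul (by positivity), ← ENNReal.ofReal_mul (by positivity),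
      ← ENNReal.ofReal_mul (by positivity), ← ENNReal.ofReal_add (by positivity) (by positivity),
      ← ENNReal.ofReal_add (by positivity) (by positivity)]
    congr 1
    ring
  have h5 : ENNReal.ofReal (t ^ 4 * (93 / 100)) < ENNReal.ofReal (t ^ 4) := by
    have : 0 < t ^ 4 := by positivity
    exact (ENNReal.ofReal_lt_ofReal_iff this).2 (by linarith)
  exact absurd h4 (not_le.2 h5)

theorem pf_MSA (hAPR : T_APR) (hOSA : T_OSA) (hRRA : T_RRA) (hRRN : T_RRN) (hTBA : T_TBA)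
    (hBIA : T_BIA) (hRTI : T_RTI) (hDYM : T_DYM) (hVLM : T_VLM) (hALU : T_ALU)
    (hMSR : T_MSR) (hHAR : T_HAR) : T_MSA := by
  intro m χ hm1 hχ
  obtain ⟨cP, hcP, hP⟩ := hAPR m χ hm1 hχ
  obtain ⟨CO, AO, hCO, hO⟩ := hOSA m χ hm1 hχ
  obtain ⟨ct, Ct, At, hct, -, hT⟩ := hTBA m χ hm1 hχ
  obtain ⟨CB, -, hB⟩ := hBIA m χ hm1 hχ
  have hC0 : 0 < CO := by linarith
  have hZ : hm m (Zc m CO) < ⊤ := (hHAR m hm1).2.2.2 CO hC0
  set Z : ℝ := (hm m (Zc m CO)).toReal with hZd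
  have hZ0 : 0 ≤ Z := ENNReal.toReal_nonneg
  have hZe : hm m (Zc m CO) = ENNReal.ofReal Z := (ENNReal.ofReal_toReal hZ.ne).symm
  refine ⟨min cP (ct ^ 4 / 4), CO * (1 + 10 * Z / ct), AO + 4 * At, lt_min hcP (by positivity),
    ?_, ?_⟩
  · have h1 : 0 ≤ 10 * Z / ct := by positivity
    nlinarith
  intro N _ T D hS F lam hF hnU P δ hLip hP0 hδ hδ2 hδc Y hY
  obtain ⟨ht1, -, -, htL⟩ := hT δ hδ hδ2
  have hk : Tg m (bi m χ δ) := (hB δ hδ hδ2).1.toTg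
  set t : ℝ := tb m χ δ with htd
  have ht : 0 < t := lt_of_lt_of_le (by positivity) ht1
  have hN2 := hS.two_le
  have hD := hS.dom
  have hN2' : (2 : ℝ) ≤ N := by exact_mod_cast hN2
  have hN0 : (0 : ℝ) < N := by linarith
  have hδi : 1 ≤ δ⁻¹ := by
    rw [one_le_inv₀ hδ]
    linarith
  -- the constants
  set Q : ℝ := CO * N * δ⁻¹ ^ AO with hQ
  have hNQ : (N : ℝ) ≤ Q := by
    calc (N : ℝ) = 1 * N * 1 := by ring
      _ ≤ CO * N * δ⁻¹ ^ AO := by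
        have := one_le_pow₀ (n := AO) hδi
        gcongr
  have hQ0 : 0 < Q := by linarith
  have hY2 : Q * δ⁻¹ ^ At * (1 + 10 * Z / ct) ≤ Y := by
    refine le_trans ?_ hY
    have h1 : δ⁻¹ ^ At ≤ δ⁻¹ ^ (4 * At) := pow_le_pow_right₀ hδi (by omega)
    have h2 : 0 ≤ 1 + 10 * Z / ct := by positivity
    calc Q * δ⁻¹ ^ At * (1 + 10 * Z / ct) ≤ Q * δ⁻¹ ^ (4 * At) * (1 + 10 * Z / ct) := by gcongr
      _ = CO * (1 + 10 * Z / ct) * N * δ⁻¹ ^ (AO + 4 * At) := by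
        rw [hQ, pow_add]
        ring
  have hd1 : 1 ≤ δ⁻¹ ^ At := one_le_pow₀ hδi
  have hQY : Q ≤ Y := by
    have h2 : 0 ≤ 10 * Z / ct := by positivity
    have h3 : Q * 1 * 1 ≤ Q * δ⁻¹ ^ At * (1 + 10 * Z / ct) := by
      gcongr
      linarith
    linarith
  have hNY : (N : ℝ) ≤ Y := hNQ.trans hQY
  have hY0 : 0 < Y := by linarith
  set κ : ℝ := Q / Y with hκ
  have hκ0 : 0 ≤ κ := by positivity
  have hκY : κ * Y = Q := by rw [hκ]; field_simp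
  have hκZ : κ * Z ≤ t / 10 := by
    rw [hκ, div_mul_eq_mul_div, div_le_iff₀ hY0]
    have h1 : δ⁻¹ ^ At * δ ^ At = 1 := by
      rw [← mul_pow, inv_mul_cancel₀ hδ.ne', one_pow]
    have h2 : Q * Z ≤ ct * δ ^ At / 10 * (Q * δ⁻¹ ^ At * (1 + 10 * Z / ct)) := by
      have h3 : ct * δ ^ At / 10 * (Q * δ⁻¹ ^ At * (1 + 10 * Z / ct)) =
          Q * (ct / 10 + Z) * (δ⁻¹ ^ At * δ ^ At) := by
        field_simp
      rw [h3, h1, mul_one]
      exact mul_le_mul_of_nonneg_left (by linarith) hQ0.le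
    refine h2.trans ?_
    have h4 : 0 ≤ ct * δ ^ At / 10 := by positivity
    calc ct * δ ^ At / 10 * (Q * δ⁻¹ ^ At * (1 + 10 * Z / ct)) ≤ ct * δ ^ At / 10 * Y :=
          mul_le_mul_of_nonneg_left hY2 h4
      _ ≤ t / 10 * Y := by gcongr
  -- the forms
  have hF0 : HecA m N T F lam := hF.toHecA
  have hR1 : HecA m N T (fun g x => Rr (bi m χ δ) 1 F g x) lam := hRRA m N T D hS F lam hF0 _ hk
  have hR2 : HecA m N T
      (fun g x => Rr (bi m χ δ) 1 (fun g x => Rr (bi m χ δ) 1 F g x) g x) lam :=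
    hRRA m N T D hS _ lam hR1 _ hk
  set R1 : Mat m → VN m N → ℂ := fun g x => Rr (bi m χ δ) 1 F g x with hR1d
  set R2 : Mat m → VN m N → ℂ := fun g x => Rr (bi m χ δ) 1 R1 g x with hR2d
  have hE2 : HecA m N T (fun g x => R1 g x - (t : ℂ) * F g x) lam := ms_sub hR1 hF0 _
  have hE1 : HecA m N T (fun g x => R2 g x - (t : ℂ) * R1 g x) lam := ms_sub hR2 hR1 _
  have hDYm := hDYM m D hD Y
  have hDYs : DY D Y ⊆ D := fun z hz => hz.1
  have hmass : ∫⁻ z in D, wd F z ∂(hm m) = 1 := by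
    rw [ms_nU hVLM hMSR hm1 hD hF0, hnU, ENNReal.ofReal_one]
  -- the five bounds
  have hb2 : ∫⁻ z in D, wd (fun g x => R1 g x - (t : ℂ) * F g x) z ∂(hm m) ≤
      ENNReal.ofReal ((t / 10) ^ 2) := by
    rw [← Pool.Agent.H91.GA.rrn_mass hMSR hm1 hD hE2.cont]
    exact hP N T D hS F lam hF0 hnU P δ hLip hP0 hδ hδ2 (hδc.trans (min_le_left _ _))
  have hb1 : ∫⁻ z in D, wd (fun g x => R2 g x - (t : ℂ) * R1 g x) z ∂(hm m) ≤
      ENNReal.ofReal t ^ 2 *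
        ∫⁻ z in D, wd (fun g x => R1 g x - (t : ℂ) * F g x) z ∂(hm m) := by
    have h1 := hRRN m N T D hS _ lam hE2 _ hk 1 one_pos
    rw [Pool.Agent.H91.GA.rrn_mass hMSR hm1 hD hE2.cont, htL] at h1
    refine le_trans (le_of_eq ?_) h1
    rw [← Pool.Agent.H91.GA.rrn_mass hMSR hm1 hD hE1.cont]
    refine Finset.sum_congr rfl fun x _ => ?_
    refine setLIntegral_congr_fun hD.meas fun z hz => ?_
    show ENNReal.ofReal (‖R2 (mt z) x - (t : ℂ) * R1 (mt z) x‖ ^ 2) =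
      ENNReal.ofReal (‖Rr (bi m χ δ) 1 (fun g x => R1 g x - (t : ℂ) * F g x) (mt z) x‖ ^ 2)
    rw [ms_lin hMSR hHAR hm1 hR1 hF0 (t : ℂ) hk (dom_det hm1 hD hz) x]
  have hbb : ∫⁻ z in D \ DY D Y, wd R1 z ∂(hm m) ≤ ENNReal.ofReal ((t / 10) ^ 2) := by
    refine (ms_mass hMSR hRTI hm1 (hALU m N hm1 hN2).2.2.2.2.2 hF0 hR1 (κ := κ) (Y := Y) hC0
      hNY hκ0 (fun b n a k hs i j hij hqa x => ?_) hD hDYm).trans ?_
    · have h1 := hO N T F lam hN2 hF δ hδ hδ2 b n a k hs i j hij hqa x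
      have h2 : κ * Y * (a i / a j) = CO * δ⁻¹ ^ AO * (N * a i / a j) := by
        rw [hκY, hQ]
        ring
      rw [h2]
      exact h1
    · rw [hmass, mul_one, hZe, ← ENNReal.ofReal_mul hκ0, ← ENNReal.ofReal_pow (by positivity)]
      apply ENNReal.ofReal_le_ofReal
      exact pow_le_pow_left₀ (by positivity) hκZ 2
  have hw1 := wd_meas hMSR hR1.cont
  have hw2 := wd_meas hMSR hR2.cont
  have hwE2 := wd_meas hMSR hE2.cont
  have hwE1 := wd_meas hMSR hE1.cont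
  have hbc : ∫⁻ z in D \ DY D Y, wd R2 z ∂(hm m) ≤
      ENNReal.ofReal 2 * ∫⁻ z in D, wd (fun g x => R2 g x - (t : ℂ) * R1 g x) z ∂(hm m) +
      ENNReal.ofReal (2 * t ^ 2) * ∫⁻ z in D \ DY D Y, wd R1 z ∂(hm m) := by
    calc ∫⁻ z in D \ DY D Y, wd R2 z ∂(hm m) ≤ ∫⁻ z in D \ DY D Y,
          (ENNReal.ofReal 2 * wd (fun g x => R2 g x - (t : ℂ) * R1 g x) z +
            ENNReal.ofReal (2 * t ^ 2) * wd R1 z) ∂(hm m) :=
          setLIntegral_mono' (hD.meas.diff hDYm) fun z hz => ms_w2 R2 R1 t (dom_det hm1 hD hz.1)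
      _ = ENNReal.ofReal 2 * ∫⁻ z in D \ DY D Y,
            wd (fun g x => R2 g x - (t : ℂ) * R1 g x) z ∂(hm m) +
          ENNReal.ofReal (2 * t ^ 2) * ∫⁻ z in D \ DY D Y, wd R1 z ∂(hm m) := by
          rw [lintegral_add_left (hwE1.const_mul _), lintegral_const_mul _ hwE1,
            lintegral_const_mul _ hw1]
      _ ≤ _ := by
          refine add_le_add (mul_le_mul' le_rfl ?_) le_rfl
          exact lintegral_mono_set Set.sdiff_subset
  have hba : ENNReal.ofReal (t ^ 4) ≤ ENNReal.ofReal 3 *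
      (∫⁻ z in DY D Y, wd R2 z ∂(hm m) + ∫⁻ z in D \ DY D Y, wd R2 z ∂(hm m)) +
      ENNReal.ofReal (3 * t ^ 2) *
        ∫⁻ z in D, wd (fun g x => R1 g x - (t : ℂ) * F g x) z ∂(hm m) +
      ENNReal.ofReal 3 * ∫⁻ z in D, wd (fun g x => R2 g x - (t : ℂ) * R1 g x) z ∂(hm m) := by
    have hsplit : ∫⁻ z in DY D Y, wd R2 z ∂(hm m) + ∫⁻ z in D \ DY D Y, wd R2 z ∂(hm m) =
        ∫⁻ z in D, wd R2 z ∂(hm m) := by
      rw [← lintegral_inter_add_sdiff (wd R2) D hDYm, Set.inter_eq_self_of_subset_right hDYs]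
    rw [hsplit]
    calc ENNReal.ofReal (t ^ 4) = ENNReal.ofReal (t ^ 4) * ∫⁻ z in D, wd F z ∂(hm m) := by
          rw [hmass, mul_one]
      _ = ∫⁻ z in D, ENNReal.ofReal (t ^ 4) * wd F z ∂(hm m) :=
          (lintegral_const_mul _ (wd_meas hMSR hF0.cont)).symm
      _ ≤ ∫⁻ z in D, (ENNReal.ofReal 3 * wd R2 z +
          ENNReal.ofReal (3 * t ^ 2) * wd (fun g x => R1 g x - (t : ℂ) * F g x) z +
          ENNReal.ofReal 3 * wd (fun g x => R2 g x - (t : ℂ) * R1 g x) z) ∂(hm m) :=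
          setLIntegral_mono' hD.meas fun z hz => ms_w3 R2 R1 F t (dom_det hm1 hD hz)
      _ = _ := by
          have hs1 : Measurable fun z : V m => ENNReal.ofReal 3 * wd R2 z +
              ENNReal.ofReal (3 * t ^ 2) * wd (fun g x => R1 g x - (t : ℂ) * F g x) z :=
            (hw2.const_mul _).add (hwE2.const_mul _)
          rw [lintegral_add_left hs1, lintegral_add_left (hw2.const_mul _),
            lintegral_const_mul _ hw2, lintegral_const_mul _ hwE2, lintegral_const_mul _ hwE1]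
  have hmain := ms_fin ht hba hbc hb2 hb1 hbb
  have hres : ∫⁻ z in DY D Y, wd R2 z ∂(hm m) =
      ∑ x, ∫⁻ z in DY D Y, ENNReal.ofReal (‖R2 (mt z) x‖ ^ 2) ∂(hm m) := by
    unfold wd
    rw [lintegral_finsetSum _ fun x _ => (fn_meas hMSR hR2.cont x).pow_const 2]
    refine Finset.sum_congr rfl fun x _ => ?_
    refine setLIntegral_congr_fun hDYm fun z hz => ?_
    show ENNReal.ofReal ‖fz R2 x z‖ ^ 2 = ENNReal.ofReal (‖R2 (mt z) x‖ ^ 2)
    rw [fz_eq R2 x (dom_det hm1 hD (hDYs hz)), ENNReal.ofReal_pow (norm_nonneg _)]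
  rw [hres] at hmain
  refine le_trans (ENNReal.ofReal_le_ofReal ?_) hmain
  have h1 : δ ^ (AO + 4 * At) ≤ δ ^ (4 * At) :=
    pow_le_pow_of_le_one hδ.le (by linarith) (by omega)
  calc min cP (ct ^ 4 / 4) * δ ^ (AO + 4 * At) ≤ ct ^ 4 / 4 * δ ^ (4 * At) := by
        refine mul_le_mul (min_le_right _ _) h1 (by positivity) (by positivity)
    _ = (ct * δ ^ At) ^ 4 / 4 := by ring
    _ ≤ t ^ 4 / 4 := by gcongr

end Pool.Agent.H52.GA
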